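import Pool.Agent.TH138.LG.AffWords

set_option autoImplicit false

/-!
# Effective Siegel theorem for points generated by context-free grammars

Let `F` be a polynomial in two variables with integer coefficients such that the equation
`F(x, y) = 0` has no nonconstant solution in complex Laurent polynomials `x, y` in one variable
`T`; for instance `F` absolutely irreducible, with a curve of genus at least 1.

A word `a₁ ⋯ a_m` in the letters of an alphabet `A` represents the vector `M ρ(a₁) ⋯ ρ(a_m) v`,
where the `ρ(a)` are invertible `r × r` matrices, `M` is a `2 × r` matrix and `v` a vector, over a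
number field `K`, and all `ρ(a)`, `ρ(a)⁻¹` have `p`-integral entries, for an odd prime `p`.

(1) If all words of a context-free language represent solutions of `F(x, y) = 0`, then all these
solutions are represented by words of the language of length at most
`ℓ = width ^ (N p ^ (2 [K : ℚ] r ^ 2))`, where `N` is the number of left-hand sides of rules of the
grammar and `width` is the largest length of a right-hand side of a rule (at least 1).

(2) If moreover `K = ℚ` and the entries of `M`, the `ρ(a)` and `v` have absolute value at most `H`,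
then all these solutions satisfy `max |x| |y| ≤ (r H) ^ (ℓ + 1) H`.

The bounds are explicit and do not depend on `F`.
-/

namespace Pool.Agent.Results.MP_821da1_nt.ContextFreeFamilies

open NumberField MvPolynomial Pool.Agent.TH717.GO Pool.Agent.TH138.LG

theorem result (F : MvPolynomial (Fin 2) ℤ)
    (hF : ∀ q : Fin 2 → RatFunc ℂ, (∀ i, IsLaurent (q i)) → aeval q F = 0 →
      ∀ i, ∃ c : ℂ, q i = RatFunc.C c)
    (A : Type) (g : ContextFreeGrammar A) :
    (∀ (K : Type) [Field K] [NumberField K] (p : ℕ) (hp : p.Prime), 3 ≤ p →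
      ∀ (r : ℕ) (M : Matrix (Fin 2) (Fin r) K) (ρ : A → Matrix.GeneralLinearGroup (Fin r) K)
        (v : Fin r → K), (∀ a, ρ a ∈ GLp hp r) →
        (∀ w ∈ g.language, aeval (affVec M ρ v w) F = 0) →
        ∀ w ∈ g.language, ∃ w' ∈ g.language,
          w'.length ≤ width g ^ ((inputs g).card * p ^ (2 * Module.finrank ℚ K * r ^ 2)) ∧
          affVec M ρ v w' = affVec M ρ v w) ∧
    (∀ (p : ℕ) (hp : p.Prime), 3 ≤ p →
      ∀ (r H : ℕ) (M : Matrix (Fin 2) (Fin r) ℚ) (ρ : A → Matrix.GeneralLinearGroup (Fin r) ℚ)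
        (v : Fin r → ℚ), (∀ a, ρ a ∈ GLp hp r) → (∀ i j, |M i j| ≤ H) →
        (∀ a i j, |(ρ a : Matrix (Fin r) (Fin r) ℚ) i j| ≤ H) → (∀ j, |v j| ≤ H) →
        (∀ w ∈ g.language, aeval (affVec M ρ v w) F = 0) →
        ∀ w ∈ g.language, ∀ i, |affVec M ρ v w i| ≤
          (r * H) ^ (width g ^ ((inputs g).card * p ^ (2 * r ^ 2)) + 1) * H) := by
  have part1 : ∀ (K : Type) [Field K] [NumberField K] (p : ℕ) (hp : p.Prime), 3 ≤ p →
      ∀ (r : ℕ) (M : Matrix (Fin 2) (Fin r) K) (ρ : A → Matrix.GeneralLinearGroup (Fin r) K)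
        (v : Fin r → K), (∀ a, ρ a ∈ GLp hp r) →
        (∀ w ∈ g.language, aeval (affVec M ρ v w) F = 0) →
        ∀ w ∈ g.language, ∃ w' ∈ g.language,
          w'.length ≤ width g ^ ((inputs g).card * p ^ (2 * Module.finrank ℚ K * r ^ 2)) ∧
          affVec M ρ v w' = affVec M ρ v w := by
    intro K _ _ p hp hp3 r M ρ v hρ hX
    obtain ⟨τ⟩ := exists_embedding K
    have hno : NoLaurent {F} ((algebraMap K (AlgebraicClosure K)).comp (Int.castRingHom K)) := by
      refine noLaurent_of_complex _ _ τ ?_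
      intro q hq hFq
      refine hF q hq ?_
      have h1 := hFq F rfl
      rw [aeval_def]
      have h2 : RatFunc.C.comp (τ.comp ((algebraMap K (AlgebraicClosure K)).comp
          (Int.castRingHom K))) = algebraMap ℤ (RatFunc ℂ) := Subsingleton.elim _ _
      rwa [h2] at h1
    refine words_aff (Int.castRingHom K) {F} hno hp hp3 M ρ hρ v g ?_
    rintro w hw F' rfl
    exact hX w hw
  refine ⟨part1, ?_⟩
  intro p hp hp3 r H M ρ v hρ hM hρH hv hX w hw i
  obtain ⟨w', hw', hlen, heq⟩ := part1 ℚ p hp hp3 r M ρ v hρ hX w hw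
  rw [Module.finrank_self, mul_one] at hlen
  have habs : ∀ x : ℚ, ‖x‖ = ((|x| : ℚ) : ℝ) := fun x => by
    rw [← Rat.norm_cast_real, Real.norm_eq_abs, Rat.cast_abs]
  have hcast : ∀ x : ℚ, |x| ≤ H → ‖x‖ ≤ (H : ℝ) := fun x hx => by
    rw [habs]
    exact_mod_cast hx
  have h1 := affVec_bound M ρ v (H : ℝ) (fun i j => hcast _ (hM i j))
    (fun a i j => hcast _ (hρH a i j)) (fun j => hcast _ (hv j)) (Nat.cast_nonneg H) w' i
  rw [heq, habs] at h1
  have h2 : |affVec M ρ v w i| ≤ ((r : ℚ) * H) ^ (w'.length + 1) * H := by exact_mod_cast h1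
  refine h2.trans ?_
  rcases Nat.eq_zero_or_pos (r * H) with h0 | h0
  · have h3 : (r : ℚ) * H = 0 := by exact_mod_cast h0
    rw [h3, zero_pow (Nat.succ_ne_zero _), zero_pow (Nat.succ_ne_zero _)]
  · have h3 : (1 : ℚ) ≤ (r : ℚ) * H := by exact_mod_cast h0
    exact mul_le_mul_of_nonneg_right (pow_le_pow_right₀ h3 (by omega)) (Nat.cast_nonneg H)

end Pool.Agent.Results.MP_821da1_nt.ContextFreeFamilies
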