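import Pool.Agent.TH728.EP.Pts

/-!
Almost all members of a linear system of plane curves of degree `d ≥ 4` have no integer points
besides the base points of the system.
-/

set_option autoImplicit false

open MvPolynomial

namespace Pool.Agent.Results.MP_821da1_nt.OnlyBasePoints

/-- Let `d ≥ 4`.

Part 1. Let `V` be any additive group of polynomials in `ℤ[x, y]` such that, up to a nonzero
integer factor, every monomial of degree `d` is the part of degree `d` of a member of `V` of degree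
at most `d`, and `x ^ (d - 2)` and `y ^ (d - 2)` are the parts of degree `d - 2` of members of `V` of
degree at most `d - 2`. Let `F₀` be a polynomial of degree at most `d`, some positive multiple of
which is in `V` (for instance `F₀ = 0`). Then, among the polynomials `F ∈ F₀ + V` of degree at most
`d` with all coefficients in `[-H, H]`, the proportion of those which have an integer zero outside
the common zeros of the members of `V` of degree at most `d - 4` is at most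
`K H ^ (-1 / (10 ^ 4 d))`, for all `H ≥ 1`, with `K` depending on `V` and `F₀` only.

Part 2. Let `S` be a finite set of integer points with `|S| ≤ d - 4`, or more generally such that
for every `p ∈ S` some polynomial of degree at most `d - 5` vanishes at all the other points of `S`
but not at `p`. Let `N ≥ 1` and let `F₀` be a polynomial of degree at most `d` vanishing on `S`.
Then, among the polynomials `F` of degree at most `d` with coefficients in `[-H, H]` which vanish on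
`S` and are congruent to `F₀` modulo `N`, all but a proportion of at most `K H ^ (-1 / (10 ^ 4 d))`
have no integer zeros except the points of `S`. For `S = ∅` and `N = 1`, this is about all
polynomials of degree at most `d`. -/
theorem result (d : ℕ) (hd : 4 ≤ d) :
    (∀ V : AddSubgroup (MvPolynomial (Fin 2) ℤ),
      (∀ k ≤ d, ∃ G ∈ V, ∃ m : ℤ, m ≠ 0 ∧ G.totalDegree ≤ d ∧
        homogeneousComponent d G = C m * X 0 ^ k * X 1 ^ (d - k)) →
      (∀ i : Fin 2, ∃ G ∈ V, ∃ m : ℤ, m ≠ 0 ∧ G.totalDegree ≤ d - 2 ∧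
        homogeneousComponent (d - 2) G = C m * X i ^ (d - 2)) →
      ∀ F₀ : MvPolynomial (Fin 2) ℤ, F₀.totalDegree ≤ d → (∃ N : ℕ, 1 ≤ N ∧ N • F₀ ∈ V) →
      ∃ K : ℝ, ∀ H : ℕ, 1 ≤ H →
        (Set.ncard {F : MvPolynomial (Fin 2) ℤ |
          (F.totalDegree ≤ d ∧ (∀ n, |F.coeff n| ≤ (H : ℤ)) ∧ F - F₀ ∈ V) ∧
          ∃ x y : ℤ, eval ![x, y] F = 0 ∧
            ∃ G ∈ V, G.totalDegree + 4 ≤ d ∧ eval ![x, y] G ≠ 0} : ℝ) ≤
        K * (H : ℝ) ^ (-(1 / (10 ^ 4 * (d : ℝ)))) *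
          Set.ncard {F : MvPolynomial (Fin 2) ℤ |
            F.totalDegree ≤ d ∧ (∀ n, |F.coeff n| ≤ (H : ℤ)) ∧ F - F₀ ∈ V}) ∧
    (∀ S : Finset (ℤ × ℤ),
      (S.card + 4 ≤ d ∨ ∀ p ∈ S, ∃ g : MvPolynomial (Fin 2) ℤ, g.totalDegree + 5 ≤ d ∧
        eval ![p.1, p.2] g ≠ 0 ∧ ∀ q ∈ S, q ≠ p → eval ![q.1, q.2] g = 0) →
      ∀ F₀ : MvPolynomial (Fin 2) ℤ, F₀.totalDegree ≤ d →
      (∀ p ∈ S, eval ![p.1, p.2] F₀ = 0) → ∀ N : ℕ, 1 ≤ N →
      ∃ K : ℝ, ∀ H : ℕ, 1 ≤ H →
        (Set.ncard {F : MvPolynomial (Fin 2) ℤ |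
          (F.totalDegree ≤ d ∧ (∀ n, |F.coeff n| ≤ (H : ℤ)) ∧
            (∀ n, (N : ℤ) ∣ F.coeff n - F₀.coeff n) ∧ ∀ p ∈ S, eval ![p.1, p.2] F = 0) ∧
          {p : ℤ × ℤ | eval ![p.1, p.2] F = 0} ≠ (S : Set (ℤ × ℤ))} : ℝ) ≤
        K * (H : ℝ) ^ (-(1 / (10 ^ 4 * (d : ℝ)))) *
          Set.ncard {F : MvPolynomial (Fin 2) ℤ |
            F.totalDegree ≤ d ∧ (∀ n, |F.coeff n| ≤ (H : ℤ)) ∧
            (∀ n, (N : ℤ) ∣ F.coeff n - F₀.coeff n) ∧ ∀ p ∈ S, eval ![p.1, p.2] F = 0}) := by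
  constructor
  · intro V h1 h2 F₀ hF₀ hN
    obtain ⟨N, hN, hNF⟩ := hN
    refine Pool.Agent.TH728.EP.mv_main hd V h1 ?_ F₀ hF₀ N hN hNF
    rintro k (rfl | rfl)
    · obtain ⟨G, hG, m, hm, hGd, hGh⟩ := h2 1
      exact ⟨G, hG, m, hm, hGd, by rw [hGh, pow_zero, mul_one, Nat.sub_zero]⟩
    · obtain ⟨G, hG, m, hm, hGd, hGh⟩ := h2 0
      exact ⟨G, hG, m, hm, hGd, by rw [hGh, Nat.sub_self, pow_zero, mul_one]⟩
  · intro S hS F₀ hF₀ hF₀S N hN
    have hS' : ∀ p ∈ S, ∃ g : MvPolynomial (Fin 2) ℤ, g.totalDegree + 5 ≤ d ∧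
        eval ![p.1, p.2] g ≠ 0 ∧ ∀ q ∈ S, q ≠ p → eval ![q.1, q.2] g = 0 := by
      rcases hS with h | h
      · exact Pool.Agent.TH728.EP.sep_of_card h
      · exact h
    obtain ⟨K, hK⟩ := Pool.Agent.TH728.EP.pts_main hd S hS' F₀ hF₀ hF₀S N hN
    refine ⟨K, fun H hH => ?_⟩
    have h := hK H hH
    have he : {F : MvPolynomial (Fin 2) ℤ |
          (F.totalDegree ≤ d ∧ (∀ n, |F.coeff n| ≤ (H : ℤ)) ∧
            (∀ n, (N : ℤ) ∣ F.coeff n - F₀.coeff n) ∧ ∀ p ∈ S, eval ![p.1, p.2] F = 0) ∧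
          {p : ℤ × ℤ | eval ![p.1, p.2] F = 0} ≠ (S : Set (ℤ × ℤ))} =
        {F : MvPolynomial (Fin 2) ℤ | (F.totalDegree ≤ d ∧ (∀ n, |F.coeff n| ≤ (H : ℤ)) ∧
        (∀ n, (N : ℤ) ∣ F.coeff n - F₀.coeff n) ∧ ∀ p ∈ S, eval ![p.1, p.2] F = 0) ∧
        ∃ x y : ℤ, (x, y) ∉ S ∧ eval ![x, y] F = 0} := by
      ext F
      constructor
      · rintro ⟨f1, f2⟩
        refine ⟨f1, ?_⟩
        by_contra hcon
        push Not at hcon
        apply f2
        ext p
        constructor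
        · intro hp
          by_contra hpS
          exact hcon p.1 p.2 hpS hp
        · intro hp
          exact f1.2.2.2 p hp
      · rintro ⟨f1, x, y, hxy, h0⟩
        refine ⟨f1, fun hcon => hxy ?_⟩
        have h3 : (x, y) ∈ {p : ℤ × ℤ | eval ![p.1, p.2] F = 0} := h0
        rw [hcon] at h3
        exact h3
    rw [he]
    exact h

end Pool.Agent.Results.MP_821da1_nt.OnlyBasePoints
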