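import Pool.Agent.TH728.FX.MvT

/-!
Plane curves with a prescribed irreducible leading form (conjugate points at infinity): the
proportion of those which have an integer point is of exact order `1 / H`.
-/

set_option autoImplicit false

open MvPolynomial

namespace Pool.Agent.Results.MP_821da1_nt.PrescribedTopForm

/-- Let `f ∈ ℤ[x, y]` be a form of degree `d ≥ 4`, irreducible over `ℚ`. Among the polynomials `g` of
degree less than `d` with all coefficients in `[-H, H]`, the proportion of those for which the curve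
`f + g = 0` has an integer point is at least `1 / (2 H + 1)` and at most `K / H`, for all `H ≥ 1`,
with `K` depending on `f` only. -/
theorem result (d : ℕ) (hd : 4 ≤ d) (f : MvPolynomial (Fin 2) ℤ) (hf : f.IsHomogeneous d)
    (hirr : Irreducible (MvPolynomial.map (Int.castRingHom ℚ) f)) :
    ∃ K : ℝ, ∀ H : ℕ, 1 ≤ H →
      1 / (2 * H + 1) *
          Set.ncard {g : MvPolynomial (Fin 2) ℤ | g.totalDegree < d ∧ ∀ n, |g.coeff n| ≤ (H : ℤ)} ≤
        (Set.ncard {g : MvPolynomial (Fin 2) ℤ | g.totalDegree < d ∧ (∀ n, |g.coeff n| ≤ (H : ℤ)) ∧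
          ∃ x y : ℤ, eval ![x, y] (f + g) = 0} : ℝ) ∧
      (Set.ncard {g : MvPolynomial (Fin 2) ℤ | g.totalDegree < d ∧ (∀ n, |g.coeff n| ≤ (H : ℤ)) ∧
          ∃ x y : ℤ, eval ![x, y] (f + g) = 0} : ℝ) ≤
        K / H *
          Set.ncard {g : MvPolynomial (Fin 2) ℤ | g.totalDegree < d ∧ ∀ n, |g.coeff n| ≤ (H : ℤ)} := by
  classical
  obtain ⟨K, hK, hmain⟩ := Pool.Agent.TH728.FX.mv_main d hd f hf hirr
  refine ⟨K, ?_⟩
  intro H hH
  obtain ⟨h1, h2⟩ := hmain H hH
  have hall : Set.ncard {g : MvPolynomial (Fin 2) ℤ | g.totalDegree < d ∧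
      ∀ n, |g.coeff n| ≤ (H : ℤ)} = (2 * H + 1) ^ (d * (d + 1) / 2) := by
    have h3 := Pool.Agent.TH728.FX.set_eq (d := d) (H := H) (by omega) (fun _ => True)
    simp only [and_true, Finset.filter_true] at h3
    rw [h3, Pool.Agent.TH728.FX.card_Bo, Pool.Agent.TH728.FX.card_Jx]
  rw [hall]
  constructor
  · have h4 : (((2 * H + 1) ^ (d * (d + 1) / 2) : ℕ) : ℝ) ≤ ((2 * H + 1 : ℕ) : ℝ) *
        (Set.ncard {g : MvPolynomial (Fin 2) ℤ | g.totalDegree < d ∧ (∀ n, |g.coeff n| ≤ (H : ℤ)) ∧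
          ∃ x y : ℤ, eval ![x, y] (f + g) = 0} : ℝ) := by exact_mod_cast h1
    rw [one_div, inv_mul_le_iff₀ (by positivity)]
    push_cast at h4 ⊢
    exact h4
  · push_cast
    exact h2

end Pool.Agent.Results.MP_821da1_nt.PrescribedTopForm
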