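import Pool.Agent.TH728.FX.MvA

/-!
Plane curves of degree `d ≥ 5` with a prescribed irreducible leading form (conjugate points at
infinity): an asymptotic formula for the number of those which have an integer point.
-/

set_option autoImplicit false

open MvPolynomial MeasureTheory

namespace Pool.Agent.Results.MP_821da1_nt.PrescribedTopFormAsymptotics

/-- The pairs `(i, j) ≠ (0, 0)` of natural numbers with `i + j < d`. -/
def exps (d : ℕ) : Finset (ℕ × ℕ) :=
  (((Finset.range d) ×ˢ (Finset.range d)).filter fun p => p.1 + p.2 < d).erase (0, 0)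

/-- The probability that `|∑ t_ij x ^ i y ^ j| ≤ 1` for independent random variables `t_ij`, uniformly
distributed in `[-1, 1]`, one for each pair `(i, j) ≠ (0, 0)` with `i + j < d`: the volume of the set
of all such `t` in the cube `[-1, 1] ^ n`, divided by `2 ^ n`. -/
noncomputable def prob (d : ℕ) (x y : ℤ) : ℝ :=
  (volume {t : exps d → ℝ | (∀ p, |t p| ≤ 1) ∧
    |∑ p, t p * (x : ℝ) ^ p.1.1 * (y : ℝ) ^ p.1.2| ≤ 1}).toReal / 2 ^ (exps d).card

/-- Let `d ≥ 5` and let `c` be the sum over all `(x, y) ∈ ℤ × ℤ` of the probabilities `prob d x y`,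
which converges. Then for all forms `f ∈ ℤ[x, y]` of degree `d` which are irreducible over `ℚ`, the
number of polynomials `g` of degree less than `d` with all coefficients in `[-H, H]`, for which the
curve `f + g = 0` has an integer point, is `(c + O(H ^ (-1 / 5))) (2 H + 1) ^ (d (d + 1) / 2 - 1)`. The
number of all these `g` is `(2 H + 1) ^ (d (d + 1) / 2)`. The constant `c` does not depend on `f`. -/
theorem result (d : ℕ) (hd : 5 ≤ d) :
    Summable (fun P : ℤ × ℤ => prob d P.1 P.2) ∧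
    ∀ f : MvPolynomial (Fin 2) ℤ, f.IsHomogeneous d →
      Irreducible (MvPolynomial.map (Int.castRingHom ℚ) f) →
      ∃ K : ℝ, ∀ H : ℕ, 1 ≤ H →
        |(Set.ncard {g : MvPolynomial (Fin 2) ℤ |
          g.totalDegree < d ∧ (∀ n, |g.coeff n| ≤ (H : ℤ)) ∧
            ∃ x y : ℤ, eval ![x, y] (f + g) = 0} : ℝ) / (2 * H + 1) ^ (d * (d + 1) / 2 - 1) -
          ∑' P : ℤ × ℤ, prob d P.1 P.2| ≤ K * (H : ℝ) ^ (-(1 / 5) : ℝ) := by
  have h1 : ∀ x y : ℤ, prob d x y = Pool.Agent.TH728.FX.rho d y x := fun x y => rfl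
  have h2 := Pool.Agent.TH728.FX.rho_summable (d := d) (by omega)
  have h3 : Summable (fun P : ℤ × ℤ => prob d P.1 P.2) := by
    have := (Equiv.prodComm ℤ ℤ).summable_iff.2 h2
    exact this
  have h4 : ∑' P : ℤ × ℤ, prob d P.1 P.2 = ∑' P : ℤ × ℤ, Pool.Agent.TH728.FX.rho d P.1 P.2 := by
    have := (Equiv.prodComm ℤ ℤ).tsum_eq (fun P : ℤ × ℤ => Pool.Agent.TH728.FX.rho d P.1 P.2)
    rw [← this]
    rfl
  refine ⟨h3, ?_⟩
  intro f hf hirr
  obtain ⟨K, hK⟩ := Pool.Agent.TH728.FX.mv_asym d hd f hf hirr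
  refine ⟨K, ?_⟩
  intro H hH
  rw [h4, Real.rpow_neg (Nat.cast_nonneg _), ← one_div]
  exact hK H hH

end Pool.Agent.Results.MP_821da1_nt.PrescribedTopFormAsymptotics
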